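import Pool.Agent.V11251.RC.MS

set_option autoImplicit false
set_option linter.unusedVariables false
set_option linter.unusedSectionVars false

universe u

namespace Pool.Agent.V11251.RC

open Cardinal

/-- A generic well-founded choice lemma. -/
theorem exists_rec {ι : Type u} {R : Type u} (r : ι → ι → Prop) (wf : WellFounded r)
    (P : (p : ι) → ({q // r q p} → R) → R → Prop) (h : ∀ p s, ∃ x, P p s x) :
    ∃ t : ι → R, ∀ p, P p (fun q => t q.1) (t p) := by
  choose F hF using h
  let t : ι → R := wf.fix (C := fun _ => R)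
    (fun p (ih : ∀ q, r q p → R) => F p (fun q => ih q.1 q.2))
  refine ⟨t, fun p => ?_⟩
  have h1 : t p = F p (fun q => t q.1) := wf.fix_eq _ _
  rw [h1]
  exact hF _ _

section

variable {R : Type u} [Field R] (k : Subfield R)

/-- all points of `y² = 1 + x⁴` over `M` have `x ∈ k` -/
def PP (M : Subfield R) : Prop := ∀ f ∈ M, ∀ g ∈ M, g ^ 2 = 1 + f ^ 4 → f ∈ k

variable {k}

theorem PP.mono {M N : Subfield R} (h : M ≤ N) (hN : PP k N) : PP k M :=
  fun f hf g hg hfg => hN f (h hf) g (h hg) hfg

theorem PP.step [CharZero R] {M : Subfield R} (hM : PP k M) (z : R) (hz : Transcendental M z) :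
    PP k (Subfield.closure (insert z (M : Set R))) := by
  have hle : Subfield.closure (insert z (M : Set R)) ≤
      (IntermediateField.adjoin M {z}).toSubfield := by
    rw [Subfield.closure_le]
    rintro x (rfl | hx)
    · exact IntermediateField.mem_adjoin_simple_self M _
    · exact (IntermediateField.adjoin M {z}).algebraMap_mem (⟨x, hx⟩ : M)
  intro f hf g hg hfg
  haveI : CharZero M := charZero_of_injective_algebraMap (R := ℚ) (A := M)
    (algebraMap ℚ M).injective
  obtain ⟨⟨c, hc⟩, ⟨c', hc'⟩⟩ := adjoin_const z hz f g (hle hf) (hle hg) hfg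
  exact hM f (by rw [hc]; exact c.2) g (by rw [hc']; exact c'.2) hfg

theorem transcendental_mono {M N : Subfield R} (h : M ≤ N) {z : R} (hz : Transcendental N z) :
    Transcendental M z := by
  intro halg
  apply hz
  obtain ⟨p, hp, hpz⟩ := halg
  refine ⟨p.map (Subfield.inclusion h), ?_, ?_⟩
  · exact (Polynomial.map_ne_zero_iff (Subfield.inclusion h).injective).2 hp
  · rw [Polynomial.aeval_def, Polynomial.eval₂_map]
    rw [Polynomial.aeval_def] at hpz
    exact hpz

theorem mem_closure_finite {ι : Type u} (t : ι → R) (x : R)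
    (hx : x ∈ Subfield.closure ((k : Set R) ∪ Set.range t)) :
    ∃ s : Finset ι, x ∈ Subfield.closure ((k : Set R) ∪ t '' (s : Set ι)) := by
  classical
  have hmono : ∀ s s' : Finset ι, s ⊆ s' → Subfield.closure ((k : Set R) ∪ t '' (s : Set ι)) ≤
      Subfield.closure ((k : Set R) ∪ t '' (s' : Set ι)) := fun s s' h =>
    Subfield.closure_mono (Set.union_subset_union_right _ (Set.image_mono (Finset.coe_subset.2 h)))
  induction hx using Subfield.closure_induction with
  | mem x hx =>
    rcases hx with hx | ⟨i, rfl⟩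
    · exact ⟨∅, Subfield.subset_closure (Or.inl hx)⟩
    · exact ⟨{i}, Subfield.subset_closure (Or.inr ⟨i, by simp, rfl⟩)⟩
  | one => exact ⟨∅, Subfield.one_mem _⟩
  | add x y _ _ hx hy =>
    obtain ⟨s, hs⟩ := hx
    obtain ⟨s', hs'⟩ := hy
    exact ⟨s ∪ s', Subfield.add_mem _ (hmono _ _ Finset.subset_union_left hs)
      (hmono _ _ Finset.subset_union_right hs')⟩
  | neg x _ hx =>
    obtain ⟨s, hs⟩ := hx
    exact ⟨s, Subfield.neg_mem _ hs⟩
  | inv x _ hx =>
    obtain ⟨s, hs⟩ := hx
    exact ⟨s, Subfield.inv_mem _ hs⟩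
  | mul x y _ _ hx hy =>
    obtain ⟨s, hs⟩ := hx
    obtain ⟨s', hs'⟩ := hy
    exact ⟨s ∪ s', Subfield.mul_mem _ (hmono _ _ Finset.subset_union_left hs)
      (hmono _ _ Finset.subset_union_right hs')⟩

theorem exists_maximal (K₀ : Subfield R) (h0 : PP k K₀) :
    ∃ K, K₀ ≤ K ∧ Maximal (fun M => K₀ ≤ M ∧ PP k M) K := by
  obtain ⟨K, hK1, hK2⟩ := zorn_le_nonempty₀ {M : Subfield R | K₀ ≤ M ∧ PP k M} (by
    intro c hc hchain y hy
    refine ⟨sSup c, ⟨(hc hy).1.trans (le_sSup hy), ?_⟩, fun z hz => le_sSup hz⟩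
    intro f hf g hg hfg
    rw [Subfield.mem_sSup_of_directedOn ⟨y, hy⟩ hchain.directedOn] at hf hg
    obtain ⟨M, hM, hfM⟩ := hf
    obtain ⟨N, hN, hgN⟩ := hg
    rcases hchain.total hM hN with h | h
    · exact (hc hN).2 f (h hfM) g hgN hfg
    · exact (hc hM).2 f hfM g (h hgN) hfg) K₀ ⟨le_rfl, h0⟩
  exact ⟨K, hK1, hK2⟩

theorem algebraic_of_maximal [CharZero R] {K₀ K : Subfield R}
    (hK : Maximal (fun M => K₀ ≤ M ∧ PP k M) K) : Algebra.IsAlgebraic K R := by
  refine ⟨fun z => ?_⟩
  by_contra hz
  have hle : K ≤ Subfield.closure (insert z (K : Set R)) := fun x hx =>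
    Subfield.subset_closure (Set.mem_insert_of_mem _ hx)
  have h1 := hK.2 ⟨hK.prop.1.trans hle, hK.prop.2.step z hz⟩ hle
  have hzK : z ∈ K := h1 (Subfield.subset_closure (Set.mem_insert _ _))
  exact hz (isAlgebraic_algebraMap (⟨z, hzK⟩ : K))

end

section order

variable {R : Type u} [Field R] [LinearOrder R] [IsStrictOrderedRing R] (k : Subfield R)

theorem card_Ioo (a b : R) (h : a < b) : #R ≤ #(Set.Ioo a b) := by
  let e := orderIsoIooNegOneOne R
  refine Cardinal.mk_le_of_injective (f := fun x : R =>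
    (⟨(a + b) / 2 + (b - a) / 2 * (e x : R), ?_⟩ : Set.Ioo a b)) ?_
  · have h1 := (e x).2
    have hpos : 0 < (b - a) / 2 := by linarith
    obtain ⟨h2, h3⟩ := h1
    constructor
    · nlinarith
    · nlinarith
  · intro x y hxy
    have hpos : 0 < (b - a) / 2 := by linarith
    have h1 := congrArg Subtype.val hxy
    simp only at h1
    have h2 : (e x : R) = e y := by
      have : (b - a) / 2 * (e x : R) = (b - a) / 2 * (e y : R) := by linear_combination h1
      exact mul_left_cancel₀ hpos.ne' this
    exact e.injective (Subtype.ext h2)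

theorem exists_dense (hR : ℵ₀ < #R) (hk : Cardinal.mk k < #R) :
    ∃ K₀ : Subfield R, k ≤ K₀ ∧ PP k K₀ ∧ ∀ a b : R, a < b → ∃ x ∈ K₀, a < x ∧ x < b := by
  classical
  let P := {p : R × R // p.1 < p.2}
  have hP : #P ≤ #R := by
    refine (Cardinal.mk_subtype_le _).trans ?_
    rw [Cardinal.mk_prod, Cardinal.lift_id, Cardinal.mul_eq_self hR.le]
  let ι := (#P).ord.ToType
  have hι : #ι = #P := Cardinal.mk_ord_toType _
  obtain ⟨e⟩ := Cardinal.eq.1 hι
  have hex : ∀ (i : ι) (s : {q : ι // q < i} → R), ∃ x, (e i).1.1 < x ∧ x < (e i).1.2 ∧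
      Transcendental (Subfield.closure ((k : Set R) ∪ Set.range s)) x := by
    intro i s
    by_contra hcon
    push Not at hcon
    set L := Subfield.closure ((k : Set R) ∪ Set.range s) with hL
    have h1 : #R ≤ #{x : R // IsAlgebraic L x} := by
      refine (card_Ioo _ _ (e i).2).trans ?_
      refine Cardinal.mk_le_of_injective (f := fun x : Set.Ioo (e i).1.1 (e i).1.2 =>
        (⟨x.1, ?_⟩ : {x : R // IsAlgebraic L x})) ?_
      · have := hcon x.1 x.2.1 x.2.2
        unfold Transcendental at this
        push Not at this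
        exact this
      · intro x y hxy
        exact Subtype.ext (congrArg (fun z => z.1) hxy)
    have h2 : #{x : R // IsAlgebraic L x} ≤ max #L ℵ₀ := Algebraic.cardinalMk_le_max L R
    have h3 : #L ≤ max #(((k : Set R) ∪ Set.range s : Set R)) ℵ₀ :=
      Subfield.cardinalMk_closure_le_max _
    have h4 : #(((k : Set R) ∪ Set.range s : Set R)) < #R := by
      refine (Cardinal.mk_union_le _ _).trans_lt (Cardinal.add_lt_of_lt hR.le hk ?_)
      refine (Cardinal.mk_range_le).trans_lt ?_
      have : #{q : ι // q < i} < #P := Cardinal.mk_Iio_ord_toType i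
      exact this.trans_le hP
    exact absurd (h1.trans (h2.trans (max_le h3 (le_max_right _ _)))) (not_le.2 (max_lt h4 hR))
  obtain ⟨t, ht⟩ := exists_rec (R := R) (fun q p : ι => q < p) wellFounded_lt
    (fun i s x => (e i).1.1 < x ∧ x < (e i).1.2 ∧
      Transcendental (Subfield.closure ((k : Set R) ∪ Set.range s)) x) hex
  have hfin : ∀ s : Finset ι, PP k (Subfield.closure ((k : Set R) ∪ t '' (s : Set ι))) := by
    intro s
    induction s using Finset.induction_on_max with
    | empty =>
      simp only [Finset.coe_empty, Set.image_empty, Set.union_empty, Subfield.closure_eq]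
      exact fun f hf g hg _ => hf
    | insert m s hm ih =>
      have htr : Transcendental (Subfield.closure ((k : Set R) ∪ t '' (s : Set ι))) (t m) := by
        refine transcendental_mono (Subfield.closure_mono (Set.union_subset_union_right _ ?_))
          (ht m).2.2
        rintro _ ⟨j, hj, rfl⟩
        exact ⟨⟨j, hm j hj⟩, rfl⟩
      refine PP.mono ?_ (ih.step (t m) htr)
      rw [Subfield.closure_le]
      rintro x (hx | ⟨j, hj, rfl⟩)
      · exact Subfield.subset_closure (Or.inr (Subfield.subset_closure (Or.inl hx)))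
      · rw [Finset.coe_insert] at hj
        rcases hj with rfl | hj
        · exact Subfield.subset_closure (Or.inl rfl)
        · exact Subfield.subset_closure (Or.inr (Subfield.subset_closure (Or.inr ⟨j, hj, rfl⟩)))
  refine ⟨Subfield.closure ((k : Set R) ∪ Set.range t), ?_, ?_, ?_⟩
  · intro x hx
    exact Subfield.subset_closure (Or.inl hx)
  · intro f hf g hg hfg
    obtain ⟨s, hs⟩ := mem_closure_finite t f hf
    obtain ⟨s', hs'⟩ := mem_closure_finite t g hg
    have hmono : ∀ s s' : Finset ι, s ⊆ s' →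
        Subfield.closure ((k : Set R) ∪ t '' (s : Set ι)) ≤
        Subfield.closure ((k : Set R) ∪ t '' (s' : Set ι)) := fun s s' h =>
      Subfield.closure_mono (Set.union_subset_union_right _
        (Set.image_mono (Finset.coe_subset.2 h)))
    exact hfin (s ∪ s') f (hmono _ _ Finset.subset_union_left hs) g
      (hmono _ _ Finset.subset_union_right hs') hfg
  · intro a b hab
    have h1 := ht (e.symm ⟨(a, b), hab⟩)
    rw [Equiv.apply_symm_apply] at h1
    exact ⟨_, Subfield.subset_closure (Or.inr ⟨_, rfl⟩), h1.1, h1.2.1⟩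

end order

end Pool.Agent.V11251.RC
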