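import Mathlib

set_option autoImplicit false
set_option linter.unusedVariables false
set_option linter.unusedSectionVars false

namespace Pool.Agent.V11251.RC

open Polynomial Cardinal

/-- the hyperreals -/
abbrev RR : Type := Filter.Germ (Filter.hyperfilter ℕ : Filter ℕ) ℝ

theorem real_root_of_odd (p : ℝ[X]) (hp : Odd p.natDegree) : ∃ x, p.eval x = 0 := by
  have hpos : 0 < p.natDegree := hp.pos
  have hdeg : 0 < p.degree := natDegree_pos_iff_degree_pos.1 hpos
  have main : ∀ q : ℝ[X], Odd q.natDegree → 0 < q.degree → 0 ≤ q.leadingCoeff →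
      ∃ x, q.eval x = 0 := by
    intro q hq hqd hl
    have h1 := q.tendsto_atTop_of_leadingCoeff_nonneg hqd hl
    have h2 : Filter.Tendsto (fun x => (q.comp (-X)).eval x) Filter.atTop Filter.atBot := by
      apply Polynomial.tendsto_atBot_of_leadingCoeff_nonpos
      · rw [← natDegree_pos_iff_degree_pos, natDegree_comp, natDegree_neg, natDegree_X, mul_one]
        exact hq.pos
      · rw [leadingCoeff_comp (by simp)]
        rw [leadingCoeff_neg, leadingCoeff_X, hq.neg_one_pow]
        linarith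
    obtain ⟨a, ha⟩ := (h1.eventually_ge_atTop 0).exists
    obtain ⟨b, hb⟩ := (h2.eventually_le_atBot 0).exists
    have hb' : q.eval (-b) ≤ 0 := by simpa using hb
    obtain ⟨c, hc⟩ := mem_range_of_exists_le_of_exists_ge (f := fun x => q.eval x)
      q.continuous ⟨-b, hb'⟩ ⟨a, ha⟩
    exact ⟨c, hc⟩
  rcases le_total 0 p.leadingCoeff with h | h
  · exact main p hp hdeg h
  · obtain ⟨x, hx⟩ := main (-p) (by simpa using hp) (by simpa using hdeg) (by simpa using h)
    exact ⟨x, by simpa using hx⟩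

theorem sqrt_RR (x : RR) (hx : 0 ≤ x) : ∃ y : RR, 0 ≤ y ∧ x = y * y := by
  induction x using Filter.Germ.inductionOn with
  | h f =>
    refine ⟨((fun n => Real.sqrt (f n) : ℕ → ℝ) : RR), ?_, ?_⟩
    · exact Filter.Germ.coe_le.2 (Filter.Eventually.of_forall fun n => Real.sqrt_nonneg _)
    · rw [← Filter.Germ.coe_mul, Filter.Germ.coe_eq]
      have h1 : ∀ᶠ n in (Filter.hyperfilter ℕ : Filter ℕ), (0 : ℝ) ≤ f n :=
        Filter.Germ.coe_le.1 hx
      filter_upwards [h1] with n hn
      simp only [Pi.mul_apply]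
      rw [Real.mul_self_sqrt hn]

theorem coe_sum' (s : Finset ℕ) (g : ℕ → ℕ → ℝ) :
    (((fun m => ∑ i ∈ s, g i m : ℕ → ℝ)) : RR) = ∑ i ∈ s, ((g i : ℕ → ℝ) : RR) := by
  classical
  induction s using Finset.induction_on with
  | empty => simp; rfl
  | insert a s ha ih =>
    rw [Finset.sum_insert ha, ← ih, ← Filter.Germ.coe_add]
    congr 1
    funext m
    rw [Finset.sum_insert ha]
    rfl

theorem root_RR (f : RR[X]) (hf : Odd f.natDegree) : ∃ x, f.IsRoot x := by
  have hrep : ∀ i, ∃ a : ℕ → ℝ, f.coeff i = (a : RR) := by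
    intro i
    induction h : f.coeff i using Filter.Germ.inductionOn with
    | h a => exact ⟨a, rfl⟩
  choose a ha using hrep
  set n := f.natDegree with hn
  have hlead : ∀ᶠ m in (Filter.hyperfilter ℕ : Filter ℕ), a n m ≠ 0 := by
    have h1 : ((a n : ℕ → ℝ) : RR) ≠ 0 := by
      rw [← ha n, hn]
      intro h0
      have : f = 0 := leadingCoeff_eq_zero.1 h0
      rw [this] at hn
      simp at hn
      rw [hn] at hf
      simp at hf
    apply Ultrafilter.eventually_not.2
    intro h2
    exact h1 (Filter.Germ.coe_eq.2 h2)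
  let p : ℕ → ℝ[X] := fun m => ∑ i ∈ Finset.range (n + 1), C (a i m) * X ^ i
  have hroot : ∀ m, ∃ x, a n m ≠ 0 → (p m).eval x = 0 := by
    intro m
    by_cases hm : a n m ≠ 0
    · have hc : (p m).coeff n = a n m := by
        simp only [p, finset_sum_coeff, coeff_C_mul_X_pow]
        rw [Finset.sum_eq_single n]
        · simp
        · intro b _ hb
          rw [if_neg (fun h => hb h.symm)]
        · intro hnn
          exact absurd (Finset.mem_range.2 (Nat.lt_succ_self n)) hnn
      have hd : (p m).natDegree = n := by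
        apply le_antisymm
        · apply natDegree_sum_le_of_forall_le
          intro i hi
          apply (natDegree_C_mul_X_pow_le _ _).trans
          have := Finset.mem_range.1 hi
          omega
        · apply le_natDegree_of_ne_zero
          rw [hc]; exact hm
      obtain ⟨x, hx⟩ := real_root_of_odd (p m) (by rw [hd]; exact hf)
      exact ⟨x, fun _ => hx⟩
    · exact ⟨0, fun h => absurd h hm⟩
  choose r hr using hroot
  refine ⟨(r : RR), ?_⟩
  rw [IsRoot.def, eval_eq_sum_range]
  have h1 : ∀ i, f.coeff i * (r : RR) ^ i = (((fun m => a i m * r m ^ i : ℕ → ℝ)) : RR) := by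
    intro i
    rw [ha i, ← Filter.Germ.coe_pow, ← Filter.Germ.coe_mul]
    rfl
  simp only [h1]
  rw [← coe_sum']
  have h0 : (0 : RR) = ((fun _ => (0 : ℝ) : ℕ → ℝ) : RR) := rfl
  rw [h0, Filter.Germ.coe_eq]
  filter_upwards [hlead] with m hm
  have h2 := hr m hm
  simp only [p, eval_finset_sum, eval_mul, eval_C, eval_pow, eval_X] at h2
  exact h2

theorem isRealClosed_RR : IsRealClosed RR :=
  IsRealClosed.of_linearOrderedField
    (fun {x} hx => by obtain ⟨y, _, hy⟩ := sqrt_RR x hx; exact ⟨y, hy⟩)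
    (fun {f} hf => root_RR f hf)

/-- constants -/
noncomputable def cst : ℝ →+* RR where
  toFun := fun x => ((fun _ => x : ℕ → ℝ) : RR)
  map_one' := rfl
  map_mul' := fun _ _ => rfl
  map_zero' := rfl
  map_add' := fun _ _ => rfl

/-- the real algebraic numbers in the hyperreals -/
noncomputable def kk : Subfield RR := Subfield.map cst (algebraicClosure ℚ ℝ).toSubfield

theorem card_RR : ℵ₀ < Cardinal.mk RR := by
  have h1 : #ℝ ≤ Cardinal.mk RR := Cardinal.mk_le_of_injective (f := cst) cst.injective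
  rw [Cardinal.mk_real] at h1
  exact lt_of_lt_of_le aleph0_lt_continuum h1

theorem card_kk : Cardinal.mk kk < Cardinal.mk RR := by
  refine lt_of_le_of_lt ?_ card_RR
  have h1 : (kk : Set RR) = cst '' {x : ℝ | IsAlgebraic ℚ x} := by
    ext y
    constructor
    · rintro ⟨x, hx, rfl⟩
      exact ⟨x, (mem_algebraicClosure_iff).1 hx, rfl⟩
    · rintro ⟨x, hx, rfl⟩
      exact ⟨x, (mem_algebraicClosure_iff).2 hx, rfl⟩
  have h2 : (kk : Set RR).Countable := by
    rw [h1]
    exact (Algebraic.countable ℚ ℝ).image _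
  exact h2.le_aleph0

theorem kk_bdd : ∀ x ∈ kk, x < (((fun n : ℕ => (n : ℝ) : ℕ → ℝ)) : RR) := by
  rintro _ ⟨x, _, rfl⟩
  show ((fun _ => x : ℕ → ℝ) : RR) < _
  rw [Filter.Germ.coe_lt]
  obtain ⟨m, hm⟩ := exists_nat_gt x
  have h1 : ∀ᶠ n in (Filter.cofinite : Filter ℕ), m ≤ n := by
    rw [Nat.cofinite_eq_atTop]
    exact Filter.eventually_ge_atTop m
  have h2 : ∀ᶠ n in (Filter.hyperfilter ℕ : Filter ℕ), m ≤ n := Filter.hyperfilter_le_cofinite h1
  filter_upwards [h2] with n hn
  exact lt_of_lt_of_le hm (by exact_mod_cast hn)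

theorem kk_sqrt : ∀ x ∈ kk, 0 ≤ x → ∃ y ∈ kk, y ^ 2 = x := by
  rintro _ ⟨x, hx, rfl⟩ h0
  have hx0 : 0 ≤ x := by
    by_contra hneg
    push Not at hneg
    have : cst x < 0 := by
      show ((fun _ => x : ℕ → ℝ) : RR) < ((fun _ => (0 : ℝ) : ℕ → ℝ) : RR)
      rw [Filter.Germ.coe_lt]
      exact Filter.Eventually.of_forall fun _ => hneg
    exact absurd h0 (not_le.2 this)
  refine ⟨cst (Real.sqrt x), ⟨Real.sqrt x, ?_, rfl⟩, ?_⟩
  · have hx' : IsAlgebraic ℚ x := (mem_algebraicClosure_iff).1 hx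
    apply (mem_algebraicClosure_iff).2
    have : Real.sqrt x ^ 2 = x := Real.sq_sqrt hx0
    rw [← this] at hx'
    exact IsAlgebraic.of_pow (by norm_num) hx'
  · rw [← map_pow, Real.sq_sqrt hx0]

end Pool.Agent.V11251.RC
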