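import Mathlib

set_option autoImplicit false
set_option linter.unusedVariables false
set_option linter.unusedSectionVars false

universe u

namespace Pool.Agent.V11251.RC

open Polynomial

/-- No non-constant rational function `f` has `1 + f^4` a square. -/
theorem ratFunc_const {F : Type u} [Field F] [CharZero F] (f g : RatFunc F)
    (h : g ^ 2 = 1 + f ^ 4) : (∃ c : F, f = RatFunc.C c) ∧ ∃ c : F, g = RatFunc.C c := by
  classical
  by_cases hf : f = 0
  · refine ⟨⟨0, by rw [hf, map_zero]⟩, ?_⟩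
    have h1 : (g - 1) * (g + 1) = 0 := by rw [hf] at h; linear_combination h
    rcases mul_eq_zero.1 h1 with h2 | h2
    · exact ⟨1, by rw [map_one]; linear_combination h2⟩
    · exact ⟨-1, by rw [map_neg, map_one]; linear_combination h2⟩
  by_cases hg : g = 0
  · -- 1 + f^4 = 0, so f is algebraic over F
    refine ⟨?_, ⟨0, by rw [hg, map_zero]⟩⟩
    by_contra hcon
    have htr := RatFunc.transcendental_of_ne_C f hcon
    apply htr
    refine ⟨X ^ 4 + C 1, ?_, ?_⟩
    · exact (monic_X_pow_add_C (1 : F) (by norm_num)).ne_zero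
    · rw [hg] at h
      simp only [map_add, map_pow, aeval_X, aeval_C, map_one]
      linear_combination -h
  set a := f.num with ha
  set b := f.denom with hb
  set c := g.num with hc
  set d := g.denom with hd
  have hab : IsCoprime a b := f.isCoprime_num_denom
  have hcd : IsCoprime c d := g.isCoprime_num_denom
  have ha0 : a ≠ 0 := RatFunc.num_ne_zero hf
  have hc0 : c ≠ 0 := RatFunc.num_ne_zero hg
  have hb0 : b ≠ 0 := f.denom_ne_zero
  have hd0 : d ≠ 0 := g.denom_ne_zero
  have hA : algebraMap F[X] (RatFunc F) b ≠ 0 := by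
    simpa using hb0
  have hD : algebraMap F[X] (RatFunc F) d ≠ 0 := by
    simpa using hd0
  have hfe : f = algebraMap F[X] (RatFunc F) a / algebraMap F[X] (RatFunc F) b :=
    (RatFunc.num_div_denom f).symm
  have hge : g = algebraMap F[X] (RatFunc F) c / algebraMap F[X] (RatFunc F) d :=
    (RatFunc.num_div_denom g).symm
  have key : c ^ 2 * b ^ 4 = d ^ 2 * (b ^ 4 + a ^ 4) := by
    apply RatFunc.algebraMap_injective F
    rw [hfe, hge] at h
    field_simp at h
    simp only [map_mul, map_pow, map_add]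
    linear_combination h
  have h1 : d ^ 2 ∣ b ^ 4 := by
    have : d ^ 2 ∣ c ^ 2 * b ^ 4 := ⟨_, key⟩
    exact (IsCoprime.pow hcd.symm).dvd_of_dvd_mul_left this
  have h2 : b ^ 4 ∣ d ^ 2 := by
    have hcop : IsCoprime (b ^ 4) (b ^ 4 + a ^ 4) := by
      have : IsCoprime (b ^ 4) (a ^ 4) := IsCoprime.pow hab.symm
      have h3 := IsCoprime.add_mul_left_right this 1
      rwa [mul_one, add_comm] at h3
    have : b ^ 4 ∣ d ^ 2 * (b ^ 4 + a ^ 4) := ⟨c ^ 2, by rw [← key]; ring⟩
    exact hcop.dvd_of_dvd_mul_right this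
  obtain ⟨u, hu⟩ := (associated_of_dvd_dvd h2 h1)
  obtain ⟨r, hr, hru⟩ := Polynomial.isUnit_iff.1 u.isUnit
  rw [← hru] at hu
  have key2 : c ^ 2 = C r * (b ^ 4 + a ^ 4) := by
    have hb4 : b ^ 4 ≠ 0 := pow_ne_zero _ hb0
    apply mul_right_cancel₀ hb4
    rw [key, ← hu]
    ring
  have h3 := Polynomial.flt_catalan (k := F) (p := 4) (q := 4) (r := 2) (by norm_num) (by norm_num)
    (by norm_num) (by norm_num) (by norm_num) (by norm_num) (by norm_num) ha0 hb0 hc0 hab
    (u := r) (v := r) (w := -1) hr.ne_zero hr.ne_zero (by norm_num)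
    (by rw [key2]; simp only [map_neg, map_one]; ring)
  have ha' := Polynomial.eq_C_of_natDegree_eq_zero h3.1
  have hb' := Polynomial.eq_C_of_natDegree_eq_zero h3.2.1
  have hc' := Polynomial.eq_C_of_natDegree_eq_zero h3.2.2
  have hdd : d.natDegree = 0 := by
    have h4 := congrArg natDegree hu
    rw [hb', ← C_pow, ← C_mul, natDegree_C, natDegree_pow] at h4
    omega
  have hd' := Polynomial.eq_C_of_natDegree_eq_zero hdd
  constructor
  · refine ⟨a.coeff 0 / b.coeff 0, ?_⟩
    rw [hfe, ha', hb', RatFunc.algebraMap_C, RatFunc.algebraMap_C, map_div₀]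
    simp
  · refine ⟨c.coeff 0 / d.coeff 0, ?_⟩
    rw [hge, hc', hd', RatFunc.algebraMap_C, RatFunc.algebraMap_C, map_div₀]
    simp

/-- The same for a simple transcendental extension. -/
theorem adjoin_const {L : Type u} {R : Type u} [Field L] [Field R] [Algebra L R] [CharZero L]
    (z : R) (hz : Transcendental L z) (f g : R) (hf : f ∈ IntermediateField.adjoin L {z})
    (hg : g ∈ IntermediateField.adjoin L {z}) (h : g ^ 2 = 1 + f ^ 4) :
    (∃ c : L, f = algebraMap L R c) ∧ ∃ c : L, g = algebraMap L R c := by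
  let e := RatFunc.algEquivOfTranscendental z hz
  obtain ⟨⟨c, hc⟩, ⟨c', hc'⟩⟩ := ratFunc_const (e.symm ⟨f, hf⟩) (e.symm ⟨g, hg⟩) (by
    rw [← map_pow, ← map_pow, ← map_one e.symm, ← map_add]
    congr 1
    exact Subtype.ext h)
  refine ⟨⟨c, ?_⟩, ⟨c', ?_⟩⟩
  · have h1 := congrArg e hc
    rw [AlgEquiv.apply_symm_apply, ← RatFunc.algebraMap_eq_C, AlgEquiv.commutes] at h1
    exact congrArg Subtype.val h1
  · have h1 := congrArg e hc'
    rw [AlgEquiv.apply_symm_apply, ← RatFunc.algebraMap_eq_C, AlgEquiv.commutes] at h1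
    exact congrArg Subtype.val h1

end Pool.Agent.V11251.RC
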